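import Mathlib
import Pool.Agent.W443.J6.Stms

set_option autoImplicit false

open Polynomial Pool.Agent.W443.J6

namespace Pool.Agent.W327.J6

universe u

variable {k : Type u} [Field k]

theorem coeff_Xd (p : k[X]) (n : ℕ) : (X * derivative p).coeff n = n * p.coeff n := by
  cases n with
  | zero => simp
  | succ n => rw [coeff_X_mul, coeff_derivative]; push_cast; ring

/-- top coefficient of a product, with congruences -/
theorem coeff_top (A B : k[X]) (ρ V n : ℕ)
    (hA : ∀ j, A.coeff j ≠ 0 → j ≤ V ∧ (ρ : ℤ) ∣ (j : ℤ) - V)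
    (hB : ∀ m, B.coeff m ≠ 0 → (ρ : ℤ) ∣ (m : ℤ) - n → m ≤ n) :
    (A * B).coeff (V + n) = A.coeff V * B.coeff n := by
  rw [coeff_mul]
  rw [Finset.sum_eq_single (V, n)]
  · rintro ⟨i, j⟩ hij hne
    rw [Finset.HasAntidiagonal.mem_antidiagonal] at hij
    simp only at hij ⊢
    by_contra hc
    have h1 : A.coeff i ≠ 0 := left_ne_zero_of_mul hc
    have h2 : B.coeff j ≠ 0 := right_ne_zero_of_mul hc
    obtain ⟨h3, h4⟩ := hA i h1
    have h5 : (ρ : ℤ) ∣ (j : ℤ) - n := by
      have h6 : (j : ℤ) - n = -((i : ℤ) - V) := by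
        have : (i : ℤ) + j = V + n := by exact_mod_cast hij
        linarith
      rw [h6]
      exact (dvd_neg).mpr h4
    have h7 := hB j h2 h5
    apply hne
    have : i = V := by omega
    have h8 : j = n := by omega
    rw [this, h8]
  · intro h
    exact absurd (Finset.HasAntidiagonal.mem_antidiagonal.mpr (by simp)) h

/-- bottom coefficient of a product, with congruences -/
theorem coeff_bot (A B : k[X]) (ρ V n : ℕ)
    (hA : ∀ j, A.coeff j ≠ 0 → V ≤ j ∧ (ρ : ℤ) ∣ (j : ℤ) - V)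
    (hB : ∀ m, B.coeff m ≠ 0 → (ρ : ℤ) ∣ (m : ℤ) - n → n ≤ m) :
    (A * B).coeff (V + n) = A.coeff V * B.coeff n := by
  rw [coeff_mul]
  rw [Finset.sum_eq_single (V, n)]
  · rintro ⟨i, j⟩ hij hne
    rw [Finset.HasAntidiagonal.mem_antidiagonal] at hij
    simp only at hij ⊢
    by_contra hc
    have h1 : A.coeff i ≠ 0 := left_ne_zero_of_mul hc
    have h2 : B.coeff j ≠ 0 := right_ne_zero_of_mul hc
    obtain ⟨h3, h4⟩ := hA i h1
    have h5 : (ρ : ℤ) ∣ (j : ℤ) - n := by
      have h6 : (j : ℤ) - n = -((i : ℤ) - V) := by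
        have : (i : ℤ) + j = V + n := by exact_mod_cast hij
        linarith
      rw [h6]
      exact (dvd_neg).mpr h4
    have h7 := hB j h2 h5
    apply hne
    have : i = V := by omega
    have h8 : j = n := by omega
    rw [this, h8]
  · intro h
    exact absurd (Finset.HasAntidiagonal.mem_antidiagonal.mpr (by simp)) h

/-- the equation multiplied by `X` -/
theorem OD_X {D w : ℤ} {α φ : k[X]} (h : OD D w α φ) (N : ℕ) :
    (D : k) * (α * (X * derivative φ)).coeff N - (w : k) * ((X * derivative α) * φ).coeff N =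
      (α * X).coeff N := by
  unfold OD at h
  have h1 : C (D : k) * (α * (X * derivative φ)) - C (w : k) * ((X * derivative α) * φ) = α * X := by
    have : X * (C (D : k) * α * derivative φ - C (w : k) * derivative α * φ) = X * α := by rw [h]
    linear_combination this
  have h2 := congrArg (fun p => coeff p N) h1
  simp only [coeff_sub, coeff_C_mul] at h2
  exact h2

theorem E2_aux [CharZero k] (α φ : k[X]) (ρ V' V0 : ℕ) (w D : ℤ)
    (hρ : 2 ≤ ρ) (hw : 0 < w) (hV : V' < V0) (hα' : α.coeff V' ≠ 0) (hα0 : α.coeff V0 ≠ 0)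
    (hα : ∀ j, α.coeff j ≠ 0 → V' ≤ j ∧ j ≤ V0 ∧ (ρ : ℤ) ∣ (j : ℤ) - V')
    (h : OD D w α φ) :
    ((D : k) - w * V') * φ.coeff 1 = 1 ∧ ∃ e : ℕ, 1 ≤ e ∧ φ.coeff (1 + ρ * e) ≠ 0 ∧
      (∀ m, φ.coeff m ≠ 0 → (ρ : ℤ) ∣ (m : ℤ) - 1 → m ≤ 1 + ρ * e) ∧
      D * (1 + ρ * e) = w * V0 := by
  have hρV : (ρ : ℤ) ∣ (V0 : ℤ) - V' := (hα V0 hα0).2.2
  -- lower end
  have hA1 : ∀ j, α.coeff j ≠ 0 → V' ≤ j ∧ (ρ : ℤ) ∣ (j : ℤ) - V' := fun j hj =>
    ⟨(hα j hj).1, (hα j hj).2.2⟩
  have hA2 : ∀ j, (X * derivative α).coeff j ≠ 0 → V' ≤ j ∧ (ρ : ℤ) ∣ (j : ℤ) - V' := by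
    intro j hj
    rw [coeff_Xd] at hj
    exact hA1 j (right_ne_zero_of_mul hj)
  have hno : ∀ m : ℕ, (ρ : ℤ) ∣ (m : ℤ) - (1 : ℕ) → 1 ≤ m := by
    intro m hm
    by_contra hc
    have : m = 0 := by omega
    subst this
    have h1 : (ρ : ℤ) ∣ 1 := by
      have := (dvd_neg).mpr hm
      simpa using this
    have h2 := Int.le_of_dvd (by norm_num) h1
    omega
  have e1 := OD_X h (V' + 1)
  rw [coeff_bot α (X * derivative φ) ρ V' 1 hA1 (fun m _ h => hno m h),
    coeff_bot (X * derivative α) φ ρ V' 1 hA2 (fun m _ h => hno m h), coeff_Xd, coeff_Xd,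
    coeff_mul_X] at e1
  have e2 : ((D : k) - w * V') * φ.coeff 1 = 1 := by
    apply mul_left_cancel₀ hα'
    push_cast at e1 ⊢
    linear_combination e1
  refine ⟨e2, ?_⟩
  have hφ1 : φ.coeff 1 ≠ 0 := right_ne_zero_of_mul (by rw [e2]; exact one_ne_zero)
  -- the largest exponent congruent to one
  classical
  set S : Finset ℕ := φ.support.filter (fun m => (ρ : ℤ) ∣ (m : ℤ) - 1) with hS
  have h1S : 1 ∈ S := by
    rw [hS, Finset.mem_filter, mem_support_iff]
    exact ⟨hφ1, by simp⟩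
  obtain ⟨n, hnS, hmax⟩ := S.exists_max_image id ⟨1, h1S⟩
  simp only [id] at hmax
  have hn1 : 1 ≤ n := hmax 1 h1S
  have hnS' := hnS
  rw [hS, Finset.mem_filter, mem_support_iff] at hnS'
  obtain ⟨hφn, hρn⟩ := hnS'
  have hmax' : ∀ m, φ.coeff m ≠ 0 → (ρ : ℤ) ∣ (m : ℤ) - 1 → m ≤ n := by
    intro m hm hm2
    apply hmax
    rw [hS, Finset.mem_filter, mem_support_iff]
    exact ⟨hm, hm2⟩
  have hmaxn : ∀ m, φ.coeff m ≠ 0 → (ρ : ℤ) ∣ (m : ℤ) - n → m ≤ n := by
    intro m hm hm2
    apply hmax' m hm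
    have : (m : ℤ) - 1 = ((m : ℤ) - n) + ((n : ℤ) - 1) := by ring
    rw [this]
    exact dvd_add hm2 hρn
  have hA3 : ∀ j, α.coeff j ≠ 0 → j ≤ V0 ∧ (ρ : ℤ) ∣ (j : ℤ) - V0 := by
    intro j hj
    refine ⟨(hα j hj).2.1, ?_⟩
    have : (j : ℤ) - V0 = ((j : ℤ) - V') - ((V0 : ℤ) - V') := by ring
    rw [this]
    exact dvd_sub (hα j hj).2.2 hρV
  have hA4 : ∀ j, (X * derivative α).coeff j ≠ 0 → j ≤ V0 ∧ (ρ : ℤ) ∣ (j : ℤ) - V0 := by
    intro j hj
    rw [coeff_Xd] at hj
    exact hA3 j (right_ne_zero_of_mul hj)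
  have hB : ∀ m : ℕ, (X * derivative φ).coeff m ≠ 0 → (ρ : ℤ) ∣ (m : ℤ) - n → m ≤ n := by
    intro m hm
    rw [coeff_Xd] at hm
    exact hmaxn m (right_ne_zero_of_mul hm)
  have e3 := OD_X h (V0 + n)
  rw [coeff_top α (X * derivative φ) ρ V0 n hA3 hB,
    coeff_top (X * derivative α) φ ρ V0 n hA4 hmaxn, coeff_Xd, coeff_Xd] at e3
  have hVk : (w : k) * V' ≠ w * V0 := by
    intro hc
    have h1 : ((w * V' : ℤ) : k) = ((w * V0 : ℤ) : k) := by push_cast; exact hc
    have h2 : w * V' = w * V0 := by exact_mod_cast h1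
    have h3 := mul_left_cancel₀ hw.ne' h2
    omega
  have hne1 : n ≠ 1 := by
    intro hc
    subst hc
    rw [coeff_mul_X] at e3
    have e4 : ((D : k) - w * V0) * φ.coeff 1 = 1 := by
      apply mul_left_cancel₀ hα0
      push_cast at e3 ⊢
      linear_combination e3
    apply hVk
    have e5 : ((w : k) * V' - w * V0) * φ.coeff 1 = 0 := by linear_combination e4 - e2
    rcases mul_eq_zero.mp e5 with h6 | h6
    · linear_combination h6
    · exact absurd h6 hφ1
  obtain ⟨e, he⟩ : ∃ e : ℕ, n = 1 + ρ * e := by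
    have h1 : ρ ∣ n - 1 := by
      have : ((n - 1 : ℕ) : ℤ) = (n : ℤ) - 1 := by push_cast [hn1]; ring
      rw [← Int.natCast_dvd_natCast, this]
      exact hρn
    obtain ⟨e, he⟩ := h1
    exact ⟨e, by omega⟩
  refine ⟨e, ?_, ?_, ?_, ?_⟩
  · rcases Nat.eq_zero_or_pos e with h0 | h0
    · subst h0; simp at he; exact absurd he hne1
    · exact h0
  · rw [← he]; exact hφn
  · rw [← he]; exact hmax'
  · have h0 : (α * X).coeff (V0 + n) = 0 := by
      obtain ⟨n', rfl⟩ : ∃ n', n = n' + 1 := ⟨n - 1, by omega⟩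
      rw [← add_assoc, coeff_mul_X]
      by_contra hc
      have := (hα _ hc).2.1
      omega
    rw [h0] at e3
    have e4 : ((D : k) * n - w * V0) * (α.coeff V0 * φ.coeff n) = 0 := by linear_combination e3
    rcases mul_eq_zero.mp e4 with h6 | h6
    · have h7 : ((D * n : ℤ) : k) = ((w * V0 : ℤ) : k) := by push_cast; linear_combination h6
      have h8 : D * n = w * V0 := by exact_mod_cast h7
      rw [← h8, he]; push_cast; ring
    · exact absurd h6 (mul_ne_zero hα0 hφn)

theorem E2 : S_E2.{u} := by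
  intro k _ _ α φ ρ σ V' V0 U' U0 D hσ hσρ hD hV hα' hα0 hα hD' hD0 h
  have hw : (0 : ℤ) < ρ - σ := by
    have : (σ : ℤ) < ρ := by exact_mod_cast hσρ
    linarith
  have hρ0 : (ρ : ℤ) ≠ 0 := by
    have : 0 < ρ := by omega
    exact_mod_cast this.ne'
  obtain ⟨h1, e, he, -, -, h2⟩ := E2_aux α φ ρ V' V0 (ρ - σ) D (by omega) hw hV hα' hα0 hα h
  refine ⟨?_, e, he, ?_⟩
  · intro hc
    have h3 : ((D : k) - ((ρ - σ : ℤ) : k) * V') = 0 := by
      have h4 : D - (ρ - σ : ℤ) * V' = 0 := by rw [hD', hc]; ring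
      have h5 : ((D - (ρ - σ : ℤ) * V' : ℤ) : k) = 0 := by rw [h4]; simp
      push_cast at h5 ⊢
      exact h5
    rw [h3, zero_mul] at h1
    exact zero_ne_one h1
  · apply mul_left_cancel₀ hρ0
    linear_combination h2 - hD0

/-- the part with exponents congruent to one modulo three -/
noncomputable def P1 (φ : k[X]) : k[X] :=
  ∑ n ∈ φ.support.filter (fun n => n % 3 = 1), monomial n (φ.coeff n)

theorem coeff_P1 (φ : k[X]) (n : ℕ) : (P1 φ).coeff n = if n % 3 = 1 then φ.coeff n else 0 := by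
  unfold P1
  rw [finsetSum_coeff]
  simp only [coeff_monomial]
  rw [Finset.sum_ite_eq']
  by_cases h1 : n % 3 = 1
  · rw [if_pos h1]
    by_cases h2 : φ.coeff n = 0
    · rw [h2]; simp
    · rw [if_pos]
      rw [Finset.mem_filter, mem_support_iff]; exact ⟨h2, h1⟩
  · rw [if_neg h1, if_neg]
    rw [Finset.mem_filter]
    exact fun h => h1 h.2

theorem P1_mul (A B : k[X]) (hA : ∀ j, A.coeff j ≠ 0 → 3 ∣ j) : P1 (A * B) = A * P1 B := by
  ext n
  rw [coeff_P1, coeff_mul, coeff_mul]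
  by_cases h1 : n % 3 = 1
  · rw [if_pos h1]
    apply Finset.sum_congr rfl
    rintro ⟨i, j⟩ hij
    rw [Finset.HasAntidiagonal.mem_antidiagonal] at hij
    simp only at hij ⊢
    rw [coeff_P1]
    by_cases h2 : A.coeff i = 0
    · rw [h2]; simp
    · have h3 := hA i h2
      rw [if_pos (by omega)]
  · rw [if_neg h1]
    symm
    apply Finset.sum_eq_zero
    rintro ⟨i, j⟩ hij
    rw [Finset.HasAntidiagonal.mem_antidiagonal] at hij
    simp only at hij ⊢
    rw [coeff_P1]
    by_cases h2 : A.coeff i = 0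
    · rw [h2]; simp
    · have h3 := hA i h2
      rw [if_neg (by omega), mul_zero]

theorem P1_Xd (φ : k[X]) : P1 (X * derivative φ) = X * derivative (P1 φ) := by
  ext n
  rw [coeff_P1, coeff_Xd, coeff_Xd, coeff_P1]
  split_ifs <;> simp

theorem P1_C_mul (c : k) (φ : k[X]) : P1 (C c * φ) = C c * P1 φ := by
  ext n
  rw [coeff_P1, coeff_C_mul, coeff_C_mul, coeff_P1]
  split_ifs <;> simp

theorem P1_sub (φ ψ : k[X]) : P1 (φ - ψ) = P1 φ - P1 ψ := by
  ext n
  rw [coeff_sub, coeff_P1, coeff_P1, coeff_P1, coeff_sub]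
  split_ifs <;> simp

theorem P1_X : P1 (X : k[X]) = X := by
  ext n
  rw [coeff_P1, coeff_X]
  split_ifs with h1 h2
  · rfl
  · rfl
  · omega
  · rfl

theorem OD_P1 (D w : ℤ) (α φ : k[X]) (hα : ∀ j, α.coeff j ≠ 0 → 3 ∣ j) (h : OD D w α φ) :
    OD D w α (P1 φ) := by
  unfold OD at h ⊢
  have hXα : ∀ j, (X * derivative α).coeff j ≠ 0 → 3 ∣ j := by
    intro j hj
    rw [coeff_Xd] at hj
    exact hα j (right_ne_zero_of_mul hj)
  have h1 : C (D : k) * (α * (X * derivative φ)) - C (w : k) * ((X * derivative α) * φ) = α * X := by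
    have : X * (C (D : k) * α * derivative φ - C (w : k) * derivative α * φ) = X * α := by rw [h]
    linear_combination this
  have h2 := congrArg P1 h1
  rw [P1_sub, P1_C_mul, P1_C_mul, P1_mul _ _ hα, P1_mul _ _ hXα, P1_mul _ _ hα, P1_Xd, P1_X] at h2
  apply mul_left_cancel₀ (X_ne_zero : (X : k[X]) ≠ 0)
  linear_combination h2

theorem E3 : S_E3.{u} := by
  intro k _ _ α φ a ha hα0 hα6 hα h
  have hak : (a : k) ≠ 0 := by exact_mod_cast (by omega : a ≠ 0)
  obtain ⟨h1, e, he, hφe, hmax, h2⟩ := E2_aux α φ 3 0 (6 * a) 2 (3 * a) (by norm_num) (by norm_num)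
    (by omega) hα0 hα6 (fun j hj => ⟨Nat.zero_le _, (hα j hj).1, by
      have := (hα j hj).2
      have h3 : ((3 : ℕ) : ℤ) ∣ (j : ℤ) := by exact_mod_cast this
      simpa using h3⟩) h
  have he1 : e = 1 := by
    have h3 : (3 * (a : ℤ)) * (1 + 3 * e) = 3 * a * 4 := by
      push_cast at h2
      linarith
    have h4 : (3 * (a : ℤ)) ≠ 0 := by
      have : (a : ℤ) ≠ 0 := by exact_mod_cast (by omega : a ≠ 0)
      positivity
    have h5 := mul_left_cancel₀ h4 h3
    omega
  subst he1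
  norm_num at hφe hmax h1
  have h3α : ∀ j, α.coeff j ≠ 0 → 3 ∣ j := fun j hj => (hα j hj).2
  have hOD := OD_P1 _ _ α φ h3α h
  set p := φ.coeff 1 with hp
  set r := φ.coeff 4 with hr
  have hP : P1 φ = C p * X + C r * X ^ 4 := by
    ext n
    rw [coeff_P1, coeff_add, coeff_C_mul, coeff_C_mul, coeff_X, coeff_X_pow]
    by_cases h3 : n % 3 = 1
    · rw [if_pos h3]
      by_cases h4 : φ.coeff n = 0
      · rw [h4]
        by_cases h5 : 1 = n
        · subst h5; rw [← hp] at h4; simp [h4]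
        · by_cases h6 : n = 4
          · subst h6; rw [← hr] at h4; simp [h4]
          · simp [h5, h6]
      · have h5 : n ≤ 4 := by
          apply hmax n h4
          omega
        have h6 : n = 1 ∨ n = 4 := by omega
        rcases h6 with rfl | rfl
        · simp [hp]
        · simp [hr]
    · rw [if_neg h3]
      have h4 : ¬ (1 = n) := by omega
      have h5 : ¬ (n = 4) := by omega
      simp [h4, h5]
  rw [hP] at hOD
  unfold OD at hOD
  have hd : derivative (C p * X + C r * X ^ 4) = C p + C (4 * r) * X ^ 3 := by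
    simp only [derivative_add, derivative_C_mul, derivative_X, derivative_X_pow]
    simp only [map_mul]
    norm_num
    ring
  rw [hd] at hOD
  have hp0 : p ≠ 0 := right_ne_zero_of_mul (by rw [h1]; exact one_ne_zero)
  have h3ap : C ((3 * a : ℤ) : k) * C p = 1 := by
    rw [← C_mul]
    push_cast
    rw [h1, C_1]
  -- the reduced equation
  set g0 : k[X] := C p + C r * X ^ 3 with hg0
  have hg0d : derivative g0 = C (3 * r) * X ^ 2 := by
    rw [hg0]
    simp only [derivative_add, derivative_C, derivative_C_mul, derivative_X_pow, map_mul]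
    norm_num
    ring
  have hC2 : C ((2 : ℤ) : k) = 2 := by rw [Int.cast_ofNat]; exact map_ofNat C 2
  have hred : derivative α * g0 = C (2 * a : k) * derivative g0 * α := by
    have h2X : (2 * X : k[X]) ≠ 0 := mul_ne_zero two_ne_zero X_ne_zero
    apply mul_left_cancel₀ h2X
    rw [hg0d, hg0]
    rw [hC2] at hOD
    simp only [map_mul, Int.cast_mul, Int.cast_natCast] at hOD h3ap ⊢
    have e4 : (C (4 : k)) = 4 := map_ofNat C 4
    have e3 : (C (3 : k)) = 3 := map_ofNat C 3
    have e2 : (C (2 : k)) = 2 := map_ofNat C 2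
    have e3' : (C ((3 : ℤ) : k)) = 3 := by rw [Int.cast_ofNat]; exact map_ofNat C 3
    rw [e4, e3'] at hOD
    rw [e3'] at h3ap
    rw [e3, e2]
    linear_combination -hOD + α * h3ap
  -- comparison with the power
  set G : k[X] := g0 ^ (2 * a) with hG
  have hGd : derivative G * g0 = C (2 * a : k) * derivative g0 * G := by
    rw [hG, derivative_pow]
    obtain ⟨b, hb⟩ : ∃ b, 2 * a = b + 1 := ⟨2 * a - 1, by omega⟩
    rw [hb, Nat.add_sub_cancel, pow_succ]
    have : C (2 * a : k) = C (((b + 1 : ℕ)) : k) := by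
      rw [← hb]; push_cast; rfl
    rw [this]
    ring
  have hG6 : G.coeff (6 * a) = r ^ (2 * a) := by
    have hdeg : g0.natDegree ≤ 3 := by
      rw [hg0]
      refine natDegree_add_le_of_degree_le (by simp) ?_
      exact (natDegree_C_mul_X_pow_le _ _)
    have h5 : (g0 ^ (2 * a)).coeff (2 * a * 3) = (g0.coeff 3) ^ (2 * a) := coeff_pow_of_natDegree_le hdeg
    have h6 : g0.coeff 3 = r := by
      rw [hg0]; simp
    rw [hG, show 6 * a = 2 * a * 3 by ring, h5, h6]
  have hr0 : r ≠ 0 := hφe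
  have hrp : r ^ (2 * a) ≠ 0 := pow_ne_zero _ hr0
  set κ0 : k := α.coeff (6 * a) / r ^ (2 * a) with hκ0
  set β : k[X] := α - C κ0 * G with hβ
  have hβeq : derivative β * g0 = C (2 * a : k) * derivative g0 * β := by
    rw [hβ, derivative_sub, derivative_C_mul]
    linear_combination hred - C κ0 * hGd
  have hβ6 : β.coeff (6 * a) = 0 := by
    rw [hβ, coeff_sub, coeff_C_mul, hG6, hκ0]
    field_simp
    ring
  have hβdeg : ∀ j, 6 * a < j → β.coeff j = 0 := by
    intro j hj
    rw [hβ, coeff_sub, coeff_C_mul]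
    have h7 : α.coeff j = 0 := by
      by_contra hc
      have := (hα j hc).1
      omega
    have h8 : G.coeff j = 0 := by
      apply coeff_eq_zero_of_natDegree_lt
      have hdeg : g0.natDegree ≤ 3 := by
        rw [hg0]
        refine natDegree_add_le_of_degree_le (by simp) ?_
        exact (natDegree_C_mul_X_pow_le _ _)
      calc G.natDegree ≤ 2 * a * g0.natDegree := natDegree_pow_le
        _ ≤ 2 * a * 3 := Nat.mul_le_mul_left _ hdeg
        _ < j := by omega
    rw [h7, h8]; ring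
  have hβ0 : β = 0 := by
    by_contra hc
    have hlc : β.coeff β.natDegree ≠ 0 := by
      rw [coeff_natDegree]; exact leadingCoeff_ne_zero.mpr hc
    set b := β.natDegree with hb
    have hb6 : b ≠ 6 * a := by
      intro h9; rw [h9] at hlc; exact hlc hβ6
    -- multiply by X and compare the coefficients at b + 3
    have h9 : (X * derivative β) * g0 = C (2 * a : k) * (β * (X * derivative g0)) := by
      linear_combination X * hβeq
    have h10 := congrArg (fun q => coeff q (b + 3)) h9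
    simp only [coeff_C_mul] at h10
    have hg1 : ∀ m : ℕ, g0.coeff m ≠ 0 → ((1 : ℕ) : ℤ) ∣ (m : ℤ) - (3 : ℕ) → m ≤ 3 := by
      intro m hm _
      by_contra hc2
      apply hm
      rw [hg0]
      have h11 : m ≠ 0 := by omega
      have h12 : ¬ (m = 3) := by omega
      simp [coeff_C, h11, coeff_X_pow, h12]
    have hg2 : ∀ m : ℕ, (X * derivative g0).coeff m ≠ 0 → ((1 : ℕ) : ℤ) ∣ (m : ℤ) - (3 : ℕ) → m ≤ 3 := by
      intro m hm hm2
      rw [coeff_Xd] at hm
      exact hg1 m (right_ne_zero_of_mul hm) hm2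
    have hb1 : ∀ j, β.coeff j ≠ 0 → j ≤ b ∧ ((1 : ℕ) : ℤ) ∣ (j : ℤ) - b := by
      intro j hj
      exact ⟨le_natDegree_of_ne_zero hj, by simp⟩
    have hb2 : ∀ j, (X * derivative β).coeff j ≠ 0 → j ≤ b ∧ ((1 : ℕ) : ℤ) ∣ (j : ℤ) - b := by
      intro j hj
      rw [coeff_Xd] at hj
      exact hb1 j (right_ne_zero_of_mul hj)
    rw [coeff_top (X * derivative β) g0 1 b 3 hb2 hg1, coeff_top β (X * derivative g0) 1 b 3 hb1 hg2,
      coeff_Xd, coeff_Xd] at h10
    have h11 : g0.coeff 3 = r := by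
      rw [hg0]; simp
    rw [h11] at h10
    have h12 : ((b : k) - (6 * a : ℕ)) * (β.coeff b * r) = 0 := by
      push_cast
      push_cast at h10
      linear_combination h10
    rcases mul_eq_zero.mp h12 with h13 | h13
    · apply hb6
      have : (b : k) = ((6 * a : ℕ) : k) := by linear_combination h13
      exact_mod_cast this
    · exact (mul_ne_zero hlc hr0) h13
  have hαG : α = C κ0 * G := by
    have := hβ0
    rw [hβ] at this
    exact sub_eq_zero.mp this
  refine ⟨κ0 * r ^ (2 * a), -p / r, ?_, ?_, ?_⟩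
  · rw [hκ0, div_mul_cancel₀ _ hrp]; exact hα6
  · exact div_ne_zero (neg_ne_zero.mpr hp0) hr0
  · rw [hαG, hG]
    have h14 : g0 = C r * (X ^ 3 - C (-p / r)) := by
      rw [hg0, mul_sub, ← C_mul]
      have : r * (-p / r) = -p := by field_simp
      rw [this, C_neg]
      ring
    rw [h14, mul_pow, map_mul, ← C_pow]
    ring

end Pool.Agent.W327.J6
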